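import Pool.Agent.Helper2.K3.Ind

/-!
# Kleinian affine structures in dimension three: module B2
-/

set_option autoImplicit false

open Set Filter Topology

namespace Pool.Agent.Helper2.K3.B2

open Pool.Agent.Helper77.K3 Pool.Agent.Helper33.K3 Pool.Agent.Helper2.K3

/-- Powers of an affine map with a fixed point and three eigenvectors. -/
lemma pow_apply {γ : Aff3} {p v₁ v₂ v₃ : E} {l₁ l₂ l₃ : ℝ} (hp : γ p = p)
    (h1 : γ.linear v₁ = l₁ • v₁) (h2 : γ.linear v₂ = l₂ • v₂) (h3 : γ.linear v₃ = l₃ • v₃)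
    (n : ℕ) (x y z : ℝ) : (γ ^ n) (p + x • v₁ + y • v₂ + z • v₃) =
      p + (l₁ ^ n * x) • v₁ + (l₂ ^ n * y) • v₂ + (l₃ ^ n * z) • v₃ := by
  induction n with
  | zero =>
    rw [pow_zero, pow_zero, pow_zero, pow_zero, one_mul, one_mul, one_mul]
    rfl
  | succ n ih =>
    have e1 : (γ ^ (n + 1)) (p + x • v₁ + y • v₂ + z • v₃) =
        γ ((γ ^ n) (p + x • v₁ + y • v₂ + z • v₃)) := by
      rw [pow_succ']
      rfl
    have a1 : l₁ ^ n * x * l₁ = l₁ ^ (n + 1) * x := by ring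
    have a2 : l₂ ^ n * y * l₂ = l₂ ^ (n + 1) * y := by ring
    have a3 : l₃ ^ n * z * l₃ = l₃ ^ (n + 1) * z := by ring
    rw [e1, ih, aff_add, aff_add, aff_add, hp, map_smul, map_smul, map_smul, h1, h2, h3, smul_smul,
      smul_smul, smul_smul, a1, a2, a3]

lemma tendsto_pt3 {ι : Type*} {l : Filter ι} (p v₁ v₂ v₃ : E) {x y z : ι → ℝ} {x₀ y₀ z₀ : ℝ}
    (hx : Tendsto x l (𝓝 x₀)) (hy : Tendsto y l (𝓝 y₀)) (hz : Tendsto z l (𝓝 z₀)) :
    Tendsto (fun n => p + x n • v₁ + y n • v₂ + z n • v₃) l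
      (𝓝 (p + x₀ • v₁ + y₀ • v₂ + z₀ • v₃)) :=
  (((hx.smul_const v₁).const_add p).add (hy.smul_const v₂)).add (hz.smul_const v₃)

/-- The stable line of `γ'` lies in `K`. -/
lemma stable_line (hP1 : S_P1) (hF2 : S_F2) (hcof : S_cof) (D : KData) {γ' : Aff3}
    {p' v₂ v₃ : E} {lam μ₂ μ₃ : ℝ} (hγ' : γ' ∈ D.Γ) (hp' : γ' p' = p')
    (h1 : γ'.linear (e 0) = lam • e 0) (h2 : γ'.linear v₂ = μ₂ • v₂)
    (h3 : γ'.linear v₃ = μ₃ • v₃) (hlam : 1 < lam) (hμ₂ : 1 < μ₂) (hμ₃ : 0 < μ₃) (hμ₃' : μ₃ < 1)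
    (hind : Ind3 (e 0) v₂ v₃) (z : ℝ) : p' + z • v₃ ∈ D.K := by
  by_contra hcon
  refine plane_not_subset hF2 D hind (p := p') fun x y => ?_
  have L1 : Tendsto (fun n : ℕ => (lam⁻¹) ^ n * x) atTop (𝓝 0) := by
    have := (tendsto_pow_atTop_nhds_zero_of_lt_one (inv_pos.2 (one_pos.trans hlam)).le
      (inv_lt_one_of_one_lt₀ hlam)).mul_const x
    rwa [zero_mul] at this
  have L2 : Tendsto (fun n : ℕ => (μ₂⁻¹) ^ n * y) atTop (𝓝 0) := by
    have := (tendsto_pow_atTop_nhds_zero_of_lt_one (inv_pos.2 (one_pos.trans hμ₂)).le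
      (inv_lt_one_of_one_lt₀ hμ₂)).mul_const y
    rwa [zero_mul] at this
  have L3 : Tendsto (fun n : ℕ => μ₃ ^ n * z) atTop (𝓝 0) := by
    have := (tendsto_pow_atTop_nhds_zero_of_lt_one hμ₃.le hμ₃').mul_const z
    rwa [zero_mul] at this
  have M1 := tendsto_pt3 p' (e 0) v₂ v₃ L1 L2 (tendsto_const_nhds (x := z))
  have M2 := tendsto_pt3 p' (e 0) v₂ v₃ (tendsto_const_nhds (x := x)) (tendsto_const_nhds (x := y)) L3
  have hco : Tendsto (fun n : ℕ => γ' ^ n) atTop cofinite := by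
    refine hcof.1 _ ⟨0, 0, ?_⟩
    have e1 : ∀ n : ℕ, (γ' ^ n).linear (e 0) = lam ^ n • e 0 := by
      intro n
      induction n with
      | zero =>
        rw [pow_zero, pow_zero, one_smul]
        rfl
      | succ n ih =>
        rw [pow_succ', pow_succ]
        show γ'.linear ((γ' ^ n).linear (e 0)) = _
        rw [ih, map_smul, h1, smul_smul]
    have e2 : ∀ n : ℕ, lin (γ' ^ n) 0 0 = lam ^ n := by
      intro n
      unfold lin
      rw [e1]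
      simp [e]
    refine (tendsto_pow_atTop_atTop_of_one_lt hlam).congr fun n => ?_
    rw [e2, abs_of_pos (pow_pos (one_pos.trans hlam) n)]
  have key := hP1 D (fun n => γ' ^ n) _ _ _ (fun n => D.Γ.pow_mem hγ' n) hco M1 (M2.congr fun n => by
    have a1 : lam ^ n * ((lam⁻¹) ^ n * x) = x := by
      rw [← mul_assoc, ← mul_pow, mul_inv_cancel₀ (by linarith), one_pow, one_mul]
    have a2 : μ₂ ^ n * ((μ₂⁻¹) ^ n * y) = y := by
      rw [← mul_assoc, ← mul_pow, mul_inv_cancel₀ (by linarith), one_pow, one_mul]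
    rw [pow_apply hp' h1 h2 h3, a1, a2])
  rcases key with h4 | h4
  · exfalso
    apply hcon
    rw [zero_smul, zero_smul, add_zero, add_zero] at h4
    exact h4
  · rw [zero_smul, add_zero] at h4
    exact h4

/-- Half of the plane through the stable line. -/
lemma halfB (hK : S_K) (hfr : S_frame) (D : KData) {γ γ' : Aff3} {μ c : ℝ} {p u s p' v₂ v₃ : E}
    {lam μ₂ μ₃ : ℝ} (hγ : γ ∈ D.Γ) (hγ' : γ' ∈ D.Γ) (hH : HypF γ μ c p u s) (hp' : γ' p' = p')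
    (h1 : γ'.linear (e 0) = lam • e 0) (h2 : γ'.linear v₂ = μ₂ • v₂)
    (h3 : γ'.linear v₃ = μ₃ • v₃) (hlam : 1 < lam) (hμ₂ : 1 < μ₂) (hμ₃ : 0 < μ₃) (hμ₃' : μ₃ < 1)
    (hind : Ind3 (e 0) v₂ v₃) (hu2 : Ind3 (e 0) u v₂) (hs3 : Ind3 (e 0) s v₃)
    (hl : ∀ z : ℝ, p' + z • v₃ ∈ D.K) (σ y : ℝ) (hσ : 0 < σ * c) :
    p' + σ • e 0 + y • v₃ ∈ D.K := by
  have hH0 := hH
  obtain ⟨hμ, -, -, -, -, hindγ⟩ := hH0
  obtain ⟨X, Y, Z, hXYZ, hX, hY, hZ⟩ := coords3 hind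
  obtain ⟨x, a, b, hxab, hx, ha, hb⟩ := coords3 hindγ
  have hμp : 0 < μ := by linarith
  -- `v₃` has a nonzero `u`-component
  have ha3 : a v₃ ≠ 0 := by
    obtain ⟨f, g, h, -, hf, hg, hh⟩ := coords3 hs3
    intro h0
    have e1 := hxab v₃
    rw [h0, zero_smul, add_zero] at e1
    have e2 := congrArg h e1
    rw [map_add, map_smul, map_smul, hh.1, hh.2.1, hh.2.2, smul_zero, smul_zero, add_zero] at e2
    exact one_ne_zero e2
  have hZu : Z u ≠ 0 := by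
    obtain ⟨f, g, h, -, hf, hg, hh⟩ := coords3 hu2
    intro h0
    have e1 := hXYZ u
    rw [h0, zero_smul, add_zero] at e1
    have e2 := congrArg g e1
    rw [map_add, map_smul, map_smul, hg.1, hg.2.1, hg.2.2, smul_zero, smul_zero, add_zero] at e2
    exact one_ne_zero e2
  have hc : c ≠ 0 := by
    rintro rfl
    rw [mul_zero] at hσ
    exact lt_irrefl _ hσ
  have hσc : 0 ≤ σ / c := by
    have : σ / c = σ * c / c ^ 2 := by field_simp
    rw [this]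
    exact div_nonneg hσ.le (by positivity)
  -- the exponents
  let n : ℕ → ℕ := fun m => ⌊σ / c * lam ^ m⌋₊
  have Llam : Tendsto (fun m : ℕ => lam ^ m) atTop atTop := tendsto_pow_atTop_atTop_of_one_lt hlam
  have Ln1 : Tendsto (fun m : ℕ => (n m : ℝ) / lam ^ m) atTop (𝓝 (σ / c)) :=
    (tendsto_nat_floor_mul_div_atTop hσc).comp Llam
  have Ln : Tendsto n atTop atTop := by
    refine tendsto_nat_floor_atTop.comp ?_
    refine Llam.const_mul_atTop ?_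
    refine lt_of_le_of_ne hσc fun h0 => ?_
    rw [eq_comm, div_eq_zero_iff] at h0
    rcases h0 with h0 | h0
    · rw [h0, zero_mul] at hσ
      exact lt_irrefl _ hσ
    · exact hc h0
  -- `ρ = μ⁻¹ ^ n`
  let ρ : ℕ → ℝ := fun m => μ⁻¹ ^ n m
  have Lρ : Tendsto ρ atTop (𝓝 0) :=
    (tendsto_pow_atTop_nhds_zero_of_lt_one (inv_pos.2 hμp).le (inv_lt_one_of_one_lt₀ hμ)).comp Ln
  have Lμ3 : Tendsto (fun m : ℕ => μ₃ ^ m * y) atTop (𝓝 0) := by
    have := (tendsto_pow_atTop_nhds_zero_of_lt_one hμ₃.le hμ₃').mul_const y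
    rwa [zero_mul] at this
  have Llaminv : Tendsto (fun m : ℕ => (lam⁻¹) ^ m) atTop (𝓝 0) :=
    tendsto_pow_atTop_nhds_zero_of_lt_one (inv_pos.2 (one_pos.trans hlam)).le
      (inv_lt_one_of_one_lt₀ hlam)
  have Lμ2inv : Tendsto (fun m : ℕ => (μ₂⁻¹) ^ m) atTop (𝓝 0) :=
    tendsto_pow_atTop_nhds_zero_of_lt_one (inv_pos.2 (one_pos.trans hμ₂)).le
      (inv_lt_one_of_one_lt₀ hμ₂)
  -- constants
  set x₀ := x (p' - p)
  set a₀ := a (p' - p)
  set b₀ := b (p' - p)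
  set X₀ := X (p - p')
  set Y₀ := Y (p - p')
  set Z₀ := Z (p - p')
  set β := b₀ - a₀ * b v₃ / a v₃ with hβ
  let den : ℕ → ℝ := fun m => Z u + ρ m * ρ m * (b v₃ / a v₃) * Z s
  have Lden : Tendsto den atTop (𝓝 (Z u)) := by
    have e1 := (((Lρ.mul Lρ).mul_const (b v₃ / a v₃)).mul_const (Z s)).const_add (Z u)
    have e2 : Z u + 0 * 0 * (b v₃ / a v₃) * Z s = Z u := by ring
    rw [e2] at e1
    exact e1
  let ξ : ℕ → ℝ := fun m => (μ₃ ^ m * y - Z₀ - ρ m * β * Z s) / den m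
  have Lξ : Tendsto ξ atTop (𝓝 ((0 - Z₀ - 0 * β * Z s) / Z u)) :=
    ((Lμ3.sub_const Z₀).sub ((Lρ.mul_const β).mul_const (Z s))).div Lden hZu
  let t : ℕ → ℝ := fun m => (ξ m * ρ m - a₀) / a v₃
  have Lt : Tendsto t atTop (𝓝 (((0 - Z₀ - 0 * β * Z s) / Z u * 0 - a₀) / a v₃)) :=
    ((Lξ.mul Lρ).sub_const a₀).div_const (a v₃)
  -- the points
  let A : ℕ → ℝ := fun m => (lam⁻¹) ^ m * (X₀ + x₀ + t m * x v₃ + ξ m * X u +
    ρ m * (b₀ + t m * b v₃) * X s) + c * ((n m : ℝ) / lam ^ m)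
  let B : ℕ → ℝ := fun m => (μ₂⁻¹) ^ m * (Y₀ + ξ m * Y u + ρ m * (b₀ + t m * b v₃) * Y s)
  have LA : Tendsto A atTop (𝓝 σ) := by
    have e1 := (Llaminv.mul (((((Lt.mul_const (x v₃)).const_add (X₀ + x₀)).add
      (Lξ.mul_const (X u))).add
      ((Lρ.mul ((Lt.mul_const (b v₃)).const_add b₀)).mul_const (X s))))).add (Ln1.const_mul c)
    rw [zero_mul, zero_add, mul_div_cancel₀ _ hc] at e1
    exact e1
  have LB : Tendsto B atTop (𝓝 0) := by
    have e1 := Lμ2inv.mul (((Lξ.mul_const (Y u)).const_add Y₀).add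
      ((Lρ.mul ((Lt.mul_const (b v₃)).const_add b₀)).mul_const (Y s)))
    rw [zero_mul] at e1
    exact e1
  have LR := tendsto_pt3 p' (e 0) v₂ v₃ LA LB (tendsto_const_nhds (x := y))
  rw [zero_smul, add_zero] at LR
  refine (hK D).1.mem_of_tendsto LR ?_
  filter_upwards [Lden.eventually_ne hZu] with m hm
  -- `γ' ^ m` maps the point to `γ ^ n` of a point of the stable line
  have hq : p' + t m • v₃ = p + (x₀ + t m * x v₃) • e 0 + (ξ m * ρ m) • u +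
      (b₀ + t m * b v₃) • s := by
    have e1 := hxab (p' - p)
    have e2 := hxab v₃
    have e3 : ξ m * ρ m = a₀ + t m * a v₃ := by
      show ξ m * ρ m = a₀ + (ξ m * ρ m - a₀) / a v₃ * a v₃
      rw [div_mul_cancel₀ _ ha3]
      ring
    have e4 : p' = p + (x₀ • e 0 + a₀ • u + b₀ • s) := by
      rw [← e1]
      abel
    rw [e3]
    conv_lhs => rw [e4, e2]
    module
  have hγq : (γ ^ n m) (p' + t m • v₃) = p + (x₀ + t m * x v₃ + n m * c) • e 0 + ξ m • u +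
      (ρ m * (b₀ + t m * b v₃)) • s := by
    rw [hq, hfr.1 γ μ c p u s hH (n m)]
    have e1 : μ ^ n m * (ξ m * ρ m) = ξ m := by
      show μ ^ n m * (ξ m * μ⁻¹ ^ n m) = ξ m
      have : μ ^ n m * μ⁻¹ ^ n m = 1 := by
        rw [← mul_pow, mul_inv_cancel₀ hμp.ne', one_pow]
      linear_combination (ξ m) * this
    rw [e1]
  have hR : (γ' ^ m) (p' + A m • e 0 + B m • v₂ + y • v₃) = (γ ^ n m) (p' + t m • v₃) := by
    rw [hγq, pow_apply hp' h1 h2 h3]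
    have e1 := hXYZ (p - p')
    have e2 := hXYZ u
    have e3 := hXYZ s
    have eA : lam ^ m * A m = X₀ + x₀ + t m * x v₃ + ξ m * X u +
        ρ m * (b₀ + t m * b v₃) * X s + n m * c := by
      have e4 : lam ^ m * (lam⁻¹) ^ m = 1 := by
        rw [← mul_pow, mul_inv_cancel₀ (by linarith), one_pow]
      have e5 : lam ^ m * ((n m : ℝ) / lam ^ m) = n m :=
        mul_div_cancel₀ _ (pow_pos (by linarith) m).ne'
      show lam ^ m * ((lam⁻¹) ^ m * (X₀ + x₀ + t m * x v₃ + ξ m * X u +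
        ρ m * (b₀ + t m * b v₃) * X s) + c * ((n m : ℝ) / lam ^ m)) = _
      linear_combination (X₀ + x₀ + t m * x v₃ + ξ m * X u +
        ρ m * (b₀ + t m * b v₃) * X s) * e4 + c * e5
    have eB : μ₂ ^ m * B m = Y₀ + ξ m * Y u + ρ m * (b₀ + t m * b v₃) * Y s := by
      have e4 : μ₂ ^ m * (μ₂⁻¹) ^ m = 1 := by
        rw [← mul_pow, mul_inv_cancel₀ (by linarith), one_pow]
      show μ₂ ^ m * ((μ₂⁻¹) ^ m * (Y₀ + ξ m * Y u + ρ m * (b₀ + t m * b v₃) * Y s)) = _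
      linear_combination (Y₀ + ξ m * Y u + ρ m * (b₀ + t m * b v₃) * Y s) * e4
    have eC : μ₃ ^ m * y = Z₀ + ξ m * Z u + ρ m * (b₀ + t m * b v₃) * Z s := by
      have e4 : ξ m * den m = μ₃ ^ m * y - Z₀ - ρ m * β * Z s := div_mul_cancel₀ _ hm
      have e5 : b₀ + t m * b v₃ = β + ρ m * ξ m * (b v₃ / a v₃) := by
        show b₀ + (ξ m * ρ m - a₀) / a v₃ * b v₃ = b₀ - a₀ * b v₃ / a v₃ + ρ m * ξ m * (b v₃ / a v₃)
        ring
      rw [e5]
      have e6 : ξ m * (Z u + ρ m * ρ m * (b v₃ / a v₃) * Z s) = μ₃ ^ m * y - Z₀ - ρ m * β * Z s := e4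
      linear_combination -e6
    rw [eA, eB, eC]
    have e4 : p = p' + (X₀ • e 0 + Y₀ • v₂ + Z₀ • v₃) := by
      rw [← e1]
      abel
    conv_rhs => rw [e4, e2, e3]
    module
  have hK1 : (γ ^ n m) (p' + t m • v₃) ∈ D.K :=
    ((hK D).2 (γ ^ n m) (D.Γ.pow_mem hγ _) _).2 (hl (t m))
  rw [← hR] at hK1
  exact ((hK D).2 (γ' ^ m) (D.Γ.pow_mem hγ' _) _).1 hK1

theorem B2 (hfr : S_frame) (hP1 : S_P1) (hF2 : S_F2) (hK : S_K) (hcof : S_cof) : S_B2 := by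
  intro D γ γ' μ c p u s p' v₂ v₃ lam μ₂ μ₃ hγ hγ' hH hc hp' h1 h2 h3 hlam hμ₂ hμ₃ hμ₃' hind hu2 hu3
    hs2 hs3
  have hl := stable_line hP1 hF2 hcof D hγ' hp' h1 h2 h3 hlam hμ₂ hμ₃ hμ₃' hind
  have hind' : Ind3 (e 0) v₃ v₂ := by
    have := hind.comp ![0, 2, 1] (by decide)
    convert this using 1
    ext i
    fin_cases i <;> rfl
  refine plane_not_subset hF2 D hind' (p := p') fun σ y => ?_
  rcases lt_trichotomy (σ * c) 0 with h | h | h
  · have hH' := hfr.2.1 γ μ c p u s hH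
    exact halfB hK hfr D (D.Γ.inv_mem hγ) hγ' hH' hp' h1 h2 h3 hlam hμ₂ hμ₃ hμ₃' hind hs2 hu3 hl σ y
      (by linarith)
  · have h0 : σ = 0 := by
      rcases mul_eq_zero.1 h with h4 | h4
      · exact h4
      · exact absurd h4 hc
    rw [h0, zero_smul, add_zero]
    exact hl y
  · exact halfB hK hfr D hγ hγ' hH hp' h1 h2 h3 hlam hμ₂ hμ₃ hμ₃' hind hu2 hs3 hl σ y h

end Pool.Agent.Helper2.K3.B2
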