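import Pool.Agent.Helper33.K3.coord
import Pool.Agent.Helper77.K3.DefsII

/-!
# Unipotent triangular coordinates on `ℝ³` adapted to a triangular affine map
-/

set_option autoImplicit false

open Set Filter Topology

namespace Pool.Agent.Helper2.K3

open Pool.Agent.Helper77.K3 Pool.Agent.Helper33.K3

/-- Coordinates `X = x + a y + b z + c`, `Y = y + d z + f`, `Z = z + h`. -/
structure Fr where
  /-- coefficient of `y` in `X` -/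
  a : ℝ
  /-- coefficient of `z` in `X` -/
  b : ℝ
  /-- constant of `X` -/
  c : ℝ
  /-- coefficient of `z` in `Y` -/
  d : ℝ
  /-- constant of `Y` -/
  f : ℝ
  /-- constant of `Z` -/
  h : ℝ

namespace Fr

/-- first coordinate -/
def X (F : Fr) (x : E) : ℝ := x 0 + F.a * x 1 + F.b * x 2 + F.c

/-- second coordinate -/
def Y (F : Fr) (x : E) : ℝ := x 1 + F.d * x 2 + F.f

/-- third coordinate -/
def Z (F : Fr) (x : E) : ℝ := x 2 + F.h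

/-- The point with given coordinates. -/
def pt (F : Fr) (u v w : ℝ) : E :=
  ![u - F.c - F.b * (w - F.h) - F.a * (v - F.f - F.d * (w - F.h)), v - F.f - F.d * (w - F.h), w - F.h]

variable (F F' : Fr)

lemma pt_zero (u v w : ℝ) :
    F.pt u v w 0 = u - F.c - F.b * (w - F.h) - F.a * (v - F.f - F.d * (w - F.h)) := rfl

lemma pt_one (u v w : ℝ) : F.pt u v w 1 = v - F.f - F.d * (w - F.h) := rfl

lemma pt_two (u v w : ℝ) : F.pt u v w 2 = w - F.h := rfl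

lemma X_pt (u v w : ℝ) : F.X (F.pt u v w) = u := by
  rw [X, pt_zero, pt_one, pt_two]
  ring

lemma Y_pt (u v w : ℝ) : F.Y (F.pt u v w) = v := by
  rw [Y, pt_one, pt_two]
  ring

lemma Z_pt (u v w : ℝ) : F.Z (F.pt u v w) = w := by
  rw [Z, pt_two]
  ring

lemma pt_XYZ (x : E) : F.pt (F.X x) (F.Y x) (F.Z x) = x := by
  ext i
  fin_cases i
  · show F.pt (F.X x) (F.Y x) (F.Z x) 0 = x 0
    rw [pt_zero, X, Y, Z]
    ring
  · show F.pt (F.X x) (F.Y x) (F.Z x) 1 = x 1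
    rw [pt_one, Y, Z]
    ring
  · show F.pt (F.X x) (F.Y x) (F.Z x) 2 = x 2
    rw [pt_two, Z]
    ring

lemma eq_pt {x : E} {u v w : ℝ} (h1 : F.X x = u) (h2 : F.Y x = v) (h3 : F.Z x = w) :
    x = F.pt u v w := by
  rw [← h1, ← h2, ← h3, pt_XYZ]

lemma tendsto_pt {ι : Type*} {l : Filter ι} {u v w : ι → ℝ} {u₀ v₀ w₀ : ℝ}
    (hu : Tendsto u l (𝓝 u₀)) (hv : Tendsto v l (𝓝 v₀)) (hw : Tendsto w l (𝓝 w₀)) :
    Tendsto (fun n => F.pt (u n) (v n) (w n)) l (𝓝 (F.pt u₀ v₀ w₀)) := by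
  have h2 : Tendsto (fun n => w n - F.h) l (𝓝 (w₀ - F.h)) := hw.sub_const _
  have h1 : Tendsto (fun n => v n - F.f - F.d * (w n - F.h)) l
      (𝓝 (v₀ - F.f - F.d * (w₀ - F.h))) := (hv.sub_const _).sub (h2.const_mul _)
  refine tendsto_pi_nhds.2 fun i => ?_
  fin_cases i
  · exact ((hu.sub_const _).sub (h2.const_mul _)).sub (h1.const_mul _)
  · exact h1
  · exact h2

lemma continuous_pt {T : Type*} [TopologicalSpace T] {u v w : T → ℝ} (hu : Continuous u)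
    (hv : Continuous v) (hw : Continuous w) : Continuous fun t => F.pt (u t) (v t) (w t) :=
  continuous_iff_continuousAt.2 fun _ =>
    F.tendsto_pt (hu.continuousAt) (hv.continuousAt) (hw.continuousAt)

/-- The coordinates diagonalise `γ`. -/
def Ad (F : Fr) (γ : Aff3) : Prop :=
  ∀ x, F.X (γ x) = lin γ 0 0 * F.X x ∧ F.Y (γ x) = lin γ 1 1 * F.Y x ∧ F.Z (γ x) = lin γ 2 2 * F.Z x

variable {F F'}

lemma Ad.pow {γ : Aff3} (hF : F.Ad γ) (n : ℕ) (x : E) :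
    F.X ((γ ^ n) x) = lin γ 0 0 ^ n * F.X x ∧ F.Y ((γ ^ n) x) = lin γ 1 1 ^ n * F.Y x ∧
      F.Z ((γ ^ n) x) = lin γ 2 2 ^ n * F.Z x := by
  induction n with
  | zero =>
    rw [pow_zero, pow_zero, pow_zero, pow_zero, one_mul, one_mul, one_mul]
    exact ⟨rfl, rfl, rfl⟩
  | succ n ih =>
    have h1 : (γ ^ (n + 1)) x = γ ((γ ^ n) x) := by
      rw [pow_succ']
      rfl
    obtain ⟨h2, h3, h4⟩ := hF ((γ ^ n) x)
    rw [h1, h2, h3, h4, ih.1, ih.2.1, ih.2.2]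
    refine ⟨?_, ?_, ?_⟩ <;> ring

end Fr

/-- Existence of adapted coordinates. -/
lemma exists_ad {γ : Aff3} (ht : IsTri γ) (h0 : lin γ 0 0 ≠ 1) (h1 : lin γ 1 1 ≠ 1)
    (h2 : lin γ 2 2 ≠ 1) (h01 : lin γ 0 0 ≠ lin γ 1 1) (h02 : lin γ 0 0 ≠ lin γ 2 2)
    (h12 : lin γ 1 1 ≠ lin γ 2 2) : ∃ F : Fr, F.Ad γ := by
  obtain ⟨t10, t20, t21, -, -, -, -⟩ := ht
  have e0 : lin γ 0 0 - 1 ≠ 0 := sub_ne_zero.2 h0
  have e1 : lin γ 1 1 - 1 ≠ 0 := sub_ne_zero.2 h1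
  have e2 : lin γ 2 2 - 1 ≠ 0 := sub_ne_zero.2 h2
  have e01 : lin γ 0 0 - lin γ 1 1 ≠ 0 := sub_ne_zero.2 h01
  have e02 : lin γ 0 0 - lin γ 2 2 ≠ 0 := sub_ne_zero.2 h02
  have e12 : lin γ 1 1 - lin γ 2 2 ≠ 0 := sub_ne_zero.2 h12
  obtain ⟨h, hh⟩ : ∃ h : ℝ, h * (lin γ 2 2 - 1) = tr γ 2 := ⟨_, div_mul_cancel₀ _ e2⟩
  obtain ⟨d, hd⟩ : ∃ d : ℝ, d * (lin γ 1 1 - lin γ 2 2) = lin γ 1 2 := ⟨_, div_mul_cancel₀ _ e12⟩
  obtain ⟨f, hf⟩ : ∃ f : ℝ, f * (lin γ 1 1 - 1) = tr γ 1 + d * tr γ 2 := ⟨_, div_mul_cancel₀ _ e1⟩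
  obtain ⟨a, ha⟩ : ∃ a : ℝ, a * (lin γ 0 0 - lin γ 1 1) = lin γ 0 1 := ⟨_, div_mul_cancel₀ _ e01⟩
  obtain ⟨b, hb⟩ : ∃ b : ℝ, b * (lin γ 0 0 - lin γ 2 2) = lin γ 0 2 + a * lin γ 1 2 :=
    ⟨_, div_mul_cancel₀ _ e02⟩
  obtain ⟨c, hc⟩ : ∃ c : ℝ, c * (lin γ 0 0 - 1) = tr γ 0 + a * tr γ 1 + b * tr γ 2 :=
    ⟨_, div_mul_cancel₀ _ e0⟩
  refine ⟨⟨a, b, c, d, f, h⟩, fun x => ⟨?_, ?_, ?_⟩⟩
  · show γ x 0 + a * γ x 1 + b * γ x 2 + c = lin γ 0 0 * (x 0 + a * x 1 + b * x 2 + c)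
    rw [apply_coord γ x 0, apply_coord γ x 1, apply_coord γ x 2, t10, t20, t21]
    linear_combination (-x 1) * ha + (-x 2) * hb - hc
  · show γ x 1 + d * γ x 2 + f = lin γ 1 1 * (x 1 + d * x 2 + f)
    rw [apply_coord γ x 1, apply_coord γ x 2, t10, t20, t21]
    linear_combination (-x 2) * hd - hf
  · show γ x 2 + h = lin γ 2 2 * (x 2 + h)
    rw [apply_coord γ x 2, t20, t21]
    linear_combination -hh

/-- A triangular map in two systems of coordinates. -/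
lemma transfer (F F' : Fr) {τ : Aff3} (ht : IsTri τ) : ∃ a b c d f : ℝ, ∀ x,
    F'.X (τ x) = lin τ 0 0 * F.X x + a * F.Y x + b * F.Z x + c ∧
    F'.Y (τ x) = lin τ 1 1 * F.Y x + d * F.Z x + f ∧
    F'.Z (τ x) = lin τ 2 2 * F.Z x + (tr τ 2 + F'.h - lin τ 2 2 * F.h) := by
  obtain ⟨t10, t20, t21, -, -, -, -⟩ := ht
  refine ⟨lin τ 0 1 + F'.a * lin τ 1 1 - lin τ 0 0 * F.a,
    lin τ 0 2 + F'.a * lin τ 1 2 + F'.b * lin τ 2 2 - lin τ 0 0 * F.b -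
      (lin τ 0 1 + F'.a * lin τ 1 1 - lin τ 0 0 * F.a) * F.d,
    tr τ 0 + F'.a * tr τ 1 + F'.b * tr τ 2 + F'.c - lin τ 0 0 * F.c -
      (lin τ 0 1 + F'.a * lin τ 1 1 - lin τ 0 0 * F.a) * F.f -
      (lin τ 0 2 + F'.a * lin τ 1 2 + F'.b * lin τ 2 2 - lin τ 0 0 * F.b -
      (lin τ 0 1 + F'.a * lin τ 1 1 - lin τ 0 0 * F.a) * F.d) * F.h,
    lin τ 1 2 + F'.d * lin τ 2 2 - lin τ 1 1 * F.d,
    tr τ 1 + F'.d * tr τ 2 + F'.f - lin τ 1 1 * F.f -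
      (lin τ 1 2 + F'.d * lin τ 2 2 - lin τ 1 1 * F.d) * F.h, fun x => ⟨?_, ?_, ?_⟩⟩
  · unfold Fr.X Fr.Y Fr.Z
    rw [apply_coord τ x 0, apply_coord τ x 1, apply_coord τ x 2, t10, t20, t21]
    ring
  · unfold Fr.Y Fr.Z
    rw [apply_coord τ x 1, apply_coord τ x 2, t10, t20, t21]
    ring
  · unfold Fr.Z
    rw [apply_coord τ x 2, t20, t21]
    ring

/-- The diagonal entries of triangular maps are multiplicative. -/
lemma diag_mul {γ δ : Aff3} (h1 : IsTri γ) (h2 : IsTri δ) (i : Fin 3) :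
    lin (γ * δ) i i = lin γ i i * lin δ i i := by
  obtain ⟨a1, a2, a3, -⟩ := h1
  obtain ⟨b1, b2, b3, -⟩ := h2
  rw [lin_mul]
  fin_cases i
  · show lin γ 0 0 * lin δ 0 0 + lin γ 0 1 * lin δ 1 0 + lin γ 0 2 * lin δ 2 0 = lin γ 0 0 * lin δ 0 0
    rw [b1, b2]
    ring
  · show lin γ 1 0 * lin δ 0 1 + lin γ 1 1 * lin δ 1 1 + lin γ 1 2 * lin δ 2 1 = lin γ 1 1 * lin δ 1 1
    rw [a1, b3]
    ring
  · show lin γ 2 0 * lin δ 0 2 + lin γ 2 1 * lin δ 1 2 + lin γ 2 2 * lin δ 2 2 = lin γ 2 2 * lin δ 2 2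
    rw [a2, a3]
    ring

lemma lin_one (i j : Fin 3) : lin 1 i j = if i = j then 1 else 0 := by
  have h := congrFun (congrFun mat_one i) j
  rw [Matrix.one_apply] at h
  exact h

/-- The diagonal characters. -/
def chi (D : KData) (hD : D.Tri) (i : Fin 3) : D.Γ →* ℝ where
  toFun γ := lin γ.1 i i
  map_one' := by
    show lin 1 i i = 1
    rw [lin_one, if_pos rfl]
  map_mul' γ δ := diag_mul (hD γ.1 γ.2) (hD δ.1 δ.2) i

lemma chi_apply (D : KData) (hD : D.Tri) (i : Fin 3) (γ : D.Γ) : chi D hD i γ = lin γ.1 i i := rfl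

lemma chi_pos (D : KData) (hD : D.Tri) (i : Fin 3) (γ : D.Γ) : 0 < chi D hD i γ := by
  obtain ⟨-, -, -, h0, h1, h2, -⟩ := hD γ.1 γ.2
  rw [chi_apply]
  fin_cases i
  · exact h0
  · exact h1
  · exact h2

lemma chi_prod (D : KData) (hD : D.Tri) (γ : D.Γ) :
    chi D hD 0 γ * chi D hD 1 γ * chi D hD 2 γ = 1 := (hD γ.1 γ.2).2.2.2.2.2.2

lemma lin_pow_diag (D : KData) (hD : D.Tri) {γ : Aff3} (hγ : γ ∈ D.Γ) (n : ℕ) (i : Fin 3) :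
    lin (γ ^ n) i i = lin γ i i ^ n := map_pow (chi D hD i) (⟨γ, hγ⟩ : D.Γ) n

end Pool.Agent.Helper2.K3
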