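import Pool.Agent.Helper33.K3.coord
import Pool.Agent.Helper77.K3.DefsII

/-!
# Coordinates with respect to three independent vectors; planes
-/

set_option autoImplicit false

open Set Filter Topology

namespace Pool.Agent.Helper2.K3

open Pool.Agent.Helper77.K3 Pool.Agent.Helper33.K3

/-- Coordinate functionals of three independent vectors. -/
lemma coords3 {a b c : E} (h : Ind3 a b c) : ∃ X Y Z : E →ₗ[ℝ] ℝ,
    (∀ x, x = X x • a + Y x • b + Z x • c) ∧ (X a = 1 ∧ X b = 0 ∧ X c = 0) ∧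
    (Y a = 0 ∧ Y b = 1 ∧ Y c = 0) ∧ (Z a = 0 ∧ Z b = 0 ∧ Z c = 1) := by
  have hcard : Fintype.card (Fin 3) = Module.finrank ℝ E := by simp
  let B := basisOfLinearIndependentOfCardEqFinrank h hcard
  have h0 : B 0 = a := congrFun (coe_basisOfLinearIndependentOfCardEqFinrank h hcard) 0
  have h1 : B 1 = b := congrFun (coe_basisOfLinearIndependentOfCardEqFinrank h hcard) 1
  have h2 : B 2 = c := congrFun (coe_basisOfLinearIndependentOfCardEqFinrank h hcard) 2
  have hc : ∀ i j, B.coord i (B j) = if j = i then 1 else 0 := by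
    intro i j
    rw [Module.Basis.coord_apply, Module.Basis.repr_self, Finsupp.single_apply]
  refine ⟨B.coord 0, B.coord 1, B.coord 2, fun x => ?_, ?_, ?_, ?_⟩
  · have h3 := B.sum_repr x
    rw [Fin.sum_univ_three, h0, h1, h2] at h3
    exact h3.symm
  · rw [← h0, ← h1, ← h2, hc, hc, hc]
    simp
  · rw [← h0, ← h1, ← h2, hc, hc, hc]
    simp
  · rw [← h0, ← h1, ← h2, hc, hc, hc]
    simp

/-- Action of an affine map at a sum. -/
lemma aff_add (γ : Aff3) (p w : E) : γ (p + w) = γ p + γ.linear w := by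
  have h := γ.map_vadd p w
  rw [vadd_eq_add, vadd_eq_add] at h
  rw [add_comm p w, h, add_comm]

lemma functional_eq (f : E →ₗ[ℝ] ℝ) (x : E) :
    f x = f (e 0) * x 0 + f (e 1) * x 1 + f (e 2) * x 2 := by
  conv_lhs => rw [sum_e x]
  rw [map_add, map_add, map_smul, map_smul, map_smul]
  simp only [smul_eq_mul]
  ring

/-- A plane meets `Ω`. -/
lemma plane_not_subset (hF2 : S_F2) (D : KData) {p v w z : E} (h : Ind3 v w z)
    (hK : ∀ x y : ℝ, p + x • v + y • w ∈ D.K) : False := by
  obtain ⟨X, Y, Z, h1, -, -, hZ⟩ := coords3 h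
  have ha : (![Z (e 0), Z (e 1), Z (e 2)] : E) ≠ 0 := by
    intro h0
    have e0 : Z (e 0) = 0 := congrFun h0 0
    have e1 : Z (e 1) = 0 := congrFun h0 1
    have e2 : Z (e 2) = 0 := congrFun h0 2
    have h2 := functional_eq Z z
    rw [e0, e1, e2, hZ.2.2] at h2
    linarith
  obtain ⟨x, hx, hx2⟩ := hF2 D ![Z (e 0), Z (e 1), Z (e 2)] (Z p) ha
  have h2 : Z x = Z p := by
    rw [functional_eq Z x]
    exact hx2
  have h3 : Z (x - p) = 0 := by
    rw [map_sub, h2, sub_self]
  have h4 := h1 (x - p)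
  rw [h3, zero_smul, add_zero] at h4
  have h5 := hK (X (x - p)) (Y (x - p))
  rw [add_assoc, ← h4, add_sub_cancel] at h5
  exact h5 hx

end Pool.Agent.Helper2.K3
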