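import Pool.Agent.Helper2.K3.Fr

/-!
# Kleinian affine structures in dimension three: module T3b
-/

set_option autoImplicit false

open Set Filter Topology

namespace Pool.Agent.Helper2.K3.T3b

open Pool.Agent.Helper77.K3 Pool.Agent.Helper33.K3 Pool.Agent.Helper2.K3

/-! ## Integer exponents -/

lemma exists_int (v₁ v₂ w₁ w₂ u₁ u₂ : ℝ) (hdet : v₁ * w₂ - v₂ * w₁ ≠ 0) (N : ℝ) :
    ∃ m n : ℤ, |m * v₁ + n * w₁ - N * u₁| ≤ |v₁| + |w₁| ∧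
      |m * v₂ + n * w₂ - N * u₂| ≤ |v₂| + |w₂| := by
  obtain ⟨s, hs⟩ : ∃ s : ℝ, s * (v₁ * w₂ - v₂ * w₁) = N * (u₁ * w₂ - u₂ * w₁) :=
    ⟨_, div_mul_cancel₀ _ hdet⟩
  obtain ⟨t, ht⟩ : ∃ t : ℝ, t * (v₁ * w₂ - v₂ * w₁) = N * (v₁ * u₂ - v₂ * u₁) :=
    ⟨_, div_mul_cancel₀ _ hdet⟩
  have e1 : s * v₁ + t * w₁ = N * u₁ := by
    apply mul_right_cancel₀ hdet
    linear_combination v₁ * hs + w₁ * ht
  have e2 : s * v₂ + t * w₂ = N * u₂ := by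
    apply mul_right_cancel₀ hdet
    linear_combination v₂ * hs + w₂ * ht
  have hm : |(⌊s⌋ : ℝ) - s| ≤ 1 := by
    rw [abs_le]
    constructor
    · linarith [Int.lt_floor_add_one s]
    · linarith [Int.floor_le s]
  have hn : |(⌊t⌋ : ℝ) - t| ≤ 1 := by
    rw [abs_le]
    constructor
    · linarith [Int.lt_floor_add_one t]
    · linarith [Int.floor_le t]
  refine ⟨⌊s⌋, ⌊t⌋, ?_, ?_⟩
  · have e3 : (⌊s⌋ : ℝ) * v₁ + ⌊t⌋ * w₁ - N * u₁ = ((⌊s⌋ : ℝ) - s) * v₁ + ((⌊t⌋ : ℝ) - t) * w₁ := by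
      rw [← e1]
      ring
    rw [e3]
    refine (abs_add_le _ _).trans ?_
    rw [abs_mul, abs_mul]
    exact add_le_add (mul_le_of_le_one_left (abs_nonneg _) hm)
      (mul_le_of_le_one_left (abs_nonneg _) hn)
  · have e3 : (⌊s⌋ : ℝ) * v₂ + ⌊t⌋ * w₂ - N * u₂ = ((⌊s⌋ : ℝ) - s) * v₂ + ((⌊t⌋ : ℝ) - t) * w₂ := by
      rw [← e2]
      ring
    rw [e3]
    refine (abs_add_le _ _).trans ?_
    rw [abs_mul, abs_mul]
    exact add_le_add (mul_le_of_le_one_left (abs_nonneg _) hm)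
      (mul_le_of_le_one_left (abs_nonneg _) hn)

/-- Logarithm of a diagonal entry. -/
noncomputable def lg (D : KData) (hD : D.Tri) (i : Fin 3) (γ : D.Γ) : ℝ := Real.log (chi D hD i γ)

lemma lg_zz (D : KData) (hD : D.Tri) (i : Fin 3) (γ δ : D.Γ) (m n : ℤ) :
    lg D hD i (γ ^ m * δ ^ n) = m * lg D hD i γ + n * lg D hD i δ := by
  unfold lg
  rw [map_mul, map_zpow, map_zpow, Real.log_mul, Real.log_zpow, Real.log_zpow]
  · exact (zpow_pos (chi_pos D hD i γ) m).ne'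
  · exact (zpow_pos (chi_pos D hD i δ) n).ne'

lemma lg_sum (D : KData) (hD : D.Tri) (γ : D.Γ) :
    lg D hD 0 γ + lg D hD 1 γ + lg D hD 2 γ = 0 := by
  have h1 := chi_pos D hD 0 γ
  have h2 := chi_pos D hD 1 γ
  have h3 := chi_pos D hD 2 γ
  unfold lg
  rw [← Real.log_mul h1.ne' h2.ne', ← Real.log_mul (mul_pos h1 h2).ne' h3.ne', chi_prod,
    Real.log_one]

/-- Elements with prescribed behaviour of the logarithms. -/
lemma exists_el (D : KData) (hD : D.Tri) (g h : D.Γ)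
    (hdet : lg D hD 0 g * lg D hD 2 h - lg D hD 2 g * lg D hD 0 h ≠ 0) (u₁ u₂ : ℝ) :
    ∃ R : ℝ, 0 ≤ R ∧ ∀ N : ℝ, ∃ γ : D.Γ, |lg D hD 0 γ - N * u₁| ≤ R ∧
      |lg D hD 2 γ - N * u₂| ≤ R := by
  refine ⟨(|lg D hD 0 g| + |lg D hD 0 h|) + (|lg D hD 2 g| + |lg D hD 2 h|), by positivity,
    fun N => ?_⟩
  obtain ⟨m, n, h1, h2⟩ := exists_int _ _ _ _ u₁ u₂ hdet N
  refine ⟨g ^ m * h ^ n, ?_, ?_⟩
  · rw [lg_zz]
    exact h1.trans (le_add_of_nonneg_right (by positivity))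
  · rw [lg_zz]
    exact h2.trans (le_add_of_nonneg_left (by positivity))

lemma exists_g1 (D : KData) (hD : D.Tri) (g h : D.Γ)
    (hdet : lg D hD 0 g * lg D hD 2 h - lg D hD 2 g * lg D hD 0 h ≠ 0) :
    ∃ γ : D.Γ, lg D hD 2 γ < 0 ∧ lg D hD 1 γ < lg D hD 2 γ := by
  obtain ⟨R, hR, h1⟩ := exists_el D hD g h hdet 3 (-1)
  obtain ⟨γ, h2, h3⟩ := h1 (3 * R + 1)
  rw [abs_le] at h2 h3
  have h4 := lg_sum D hD γ
  exact ⟨γ, by linarith, by linarith⟩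

lemma exists_g2 (D : KData) (hD : D.Tri) (g h : D.Γ)
    (hdet : lg D hD 0 g * lg D hD 2 h - lg D hD 2 g * lg D hD 0 h ≠ 0) :
    ∃ γ : D.Γ, 0 < lg D hD 2 γ ∧ lg D hD 2 γ < lg D hD 0 γ := by
  obtain ⟨R, hR, h1⟩ := exists_el D hD g h hdet 2 1
  obtain ⟨γ, h2, h3⟩ := h1 (2 * R + 1)
  rw [abs_le] at h2 h3
  exact ⟨γ, by linarith, by linarith⟩

/-- The values of `lg 2` are dense. -/
lemma dense_lg (D : KData) (hD : D.Tri) (g h : D.Γ)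
    (hinj : ∀ γ ∈ D.Γ, lin γ 2 2 = 1 → lin γ 0 0 = 1)
    (hdet : lg D hD 0 g * lg D hD 2 h - lg D hD 2 g * lg D hD 0 h ≠ 0) (a b : ℝ) (hab : a < b) :
    ∃ γ : D.Γ, a < lg D hD 2 γ ∧ lg D hD 2 γ < b := by
  let S : AddSubgroup ℝ :=
    { carrier := {t | ∃ γ : D.Γ, lg D hD 2 γ = t}
      zero_mem' := ⟨1, by unfold lg; rw [map_one, Real.log_one]⟩
      add_mem' := by
        rintro _ _ ⟨γ, rfl⟩ ⟨δ, rfl⟩
        refine ⟨γ * δ, ?_⟩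
        have := lg_zz D hD 2 γ δ 1 1
        rw [zpow_one, zpow_one, Int.cast_one, one_mul, one_mul] at this
        exact this
      neg_mem' := by
        rintro _ ⟨γ, rfl⟩
        refine ⟨γ⁻¹, ?_⟩
        have := lg_zz D hD 2 γ 1 (-1) 0
        rw [zpow_neg, zpow_one, zpow_zero, mul_one] at this
        rw [this]
        push_cast
        ring }
  rcases AddSubgroup.dense_or_cyclic S with hS | ⟨c, hS⟩
  · obtain ⟨t, ⟨γ, hγ⟩, ht⟩ := hS.exists_mem_open isOpen_Ioo (nonempty_Ioo.2 hab)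
    rw [← hγ] at ht
    exact ⟨γ, ht.1, ht.2⟩
  · exfalso
    have hg : lg D hD 2 g ∈ S := ⟨g, rfl⟩
    have hh : lg D hD 2 h ∈ S := ⟨h, rfl⟩
    rw [hS, AddSubgroup.mem_closure_singleton] at hg hh
    obtain ⟨p, hp⟩ := hg
    obtain ⟨q, hq⟩ := hh
    rw [zsmul_eq_mul] at hp hq
    have h1 := lg_zz D hD 2 g h q (-p)
    have h2 : lg D hD 2 (g ^ q * h ^ (-p)) = 0 := by
      rw [h1, ← hp, ← hq]
      push_cast
      ring
    have h3 : chi D hD 2 (g ^ q * h ^ (-p)) = 1 := by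
      rcases Real.log_eq_zero.1 h2 with h4 | h4 | h4
      · exact absurd h4 (chi_pos D hD 2 _).ne'
      · exact h4
      · have := chi_pos D hD 2 (g ^ q * h ^ (-p))
        rw [h4] at this
        linarith
    have h4 : chi D hD 0 (g ^ q * h ^ (-p)) = 1 := hinj _ (g ^ q * h ^ (-p)).2 h3
    have h5 := lg_zz D hD 0 g h q (-p)
    unfold lg at h5
    rw [h4, Real.log_one] at h5
    apply hdet
    unfold lg at hp hq ⊢
    rw [← hp, ← hq]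
    push_cast at h5
    linear_combination (-c) * h5

/-! ## The sequence of exponents -/

lemma seqk (c₁ c₂ : ℝ) (h0 : 0 < c₁) (h1 : c₁ < 1) (h2 : 1 < c₂) :
    ∃ k : ℕ → ℕ, (∀ m, c₁ ^ (k m) * c₂ ^ m ∈ Icc 1 c₁⁻¹) ∧ Tendsto k atTop atTop := by
  have hex : ∀ m : ℕ, ∃ k : ℕ, c₁ ^ (k + 1) * c₂ ^ m < 1 := by
    intro m
    have h3 : 0 < (c₂ ^ m)⁻¹ := inv_pos.2 (pow_pos (by linarith) m)
    obtain ⟨n, hn⟩ := exists_pow_lt_of_lt_one h3 h1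
    refine ⟨n, ?_⟩
    have h4 : c₁ ^ (n + 1) < (c₂ ^ m)⁻¹ := by
      refine lt_of_le_of_lt ?_ hn
      rw [pow_succ]
      exact mul_le_of_le_one_right (pow_nonneg h0.le n) h1.le
    have h5 : (0 : ℝ) < c₂ ^ m := pow_pos (by linarith) m
    calc c₁ ^ (n + 1) * c₂ ^ m < (c₂ ^ m)⁻¹ * c₂ ^ m := mul_lt_mul_of_pos_right h4 h5
      _ = 1 := inv_mul_cancel₀ h5.ne'
  classical
  have hk2 : ∀ m, c₁ ^ (Nat.find (hex m)) * c₂ ^ m ≤ c₁⁻¹ := by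
    intro m
    have h3 := Nat.find_spec (hex m)
    rw [le_inv_comm₀, ← not_lt]
    · intro h4
      rw [pow_succ] at h3
      have h5 : 0 < c₁ ^ (Nat.find (hex m)) * c₂ ^ m := mul_pos (pow_pos h0 _) (pow_pos (by linarith) _)
      have h6 : (c₁ ^ (Nat.find (hex m)) * c₂ ^ m) * c₁ < 1 := by
        calc _ = c₁ ^ Nat.find (hex m) * c₁ * c₂ ^ m := by ring
          _ < 1 := h3
      have h7 : (c₁ ^ (Nat.find (hex m)) * c₂ ^ m)⁻¹ * (c₁ ^ (Nat.find (hex m)) * c₂ ^ m) = 1 :=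
        inv_mul_cancel₀ h5.ne'
      nlinarith
    · exact mul_pos (pow_pos h0 _) (pow_pos (by linarith) _)
    · exact h0
  refine ⟨fun m => Nat.find (hex m), fun m => ⟨?_, hk2 m⟩, ?_⟩
  · show 1 ≤ c₁ ^ (Nat.find (hex m)) * c₂ ^ m
    rcases Nat.eq_zero_or_pos (Nat.find (hex m)) with h3 | h3
    · rw [h3, pow_zero, one_mul]
      exact one_le_pow₀ h2.le
    · have h3' : 1 ≤ Nat.find (hex m) := h3
      have h4 := Nat.find_min (hex m) (Nat.sub_lt h3 one_pos)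
      rw [not_lt, Nat.sub_add_cancel h3'] at h4
      exact h4
  · refine tendsto_atTop.2 fun N => ?_
    have h3 : Tendsto (fun m : ℕ => c₂ ^ m) atTop atTop := tendsto_pow_atTop_atTop_of_one_lt h2
    filter_upwards [h3.eventually_gt_atTop (c₁⁻¹ * (c₁ ^ N)⁻¹)] with m hm
    by_contra hcon
    rw [not_le] at hcon
    have h4 := hk2 m
    have h5 : c₁ ^ N ≤ c₁ ^ (Nat.find (hex m)) := pow_le_pow_of_le_one h0.le h1.le hcon.le
    have h6 : (0 : ℝ) < c₁ ^ N := pow_pos h0 N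
    have h7 : c₁ ^ N * c₂ ^ m ≤ c₁⁻¹ :=
      (mul_le_mul_of_nonneg_right h5 (pow_nonneg (by linarith) m)).trans h4
    have h8 : c₁⁻¹ < c₁ ^ N * c₂ ^ m := by
      calc c₁⁻¹ = c₁ ^ N * (c₁⁻¹ * (c₁ ^ N)⁻¹) := by
            field_simp
        _ < c₁ ^ N * c₂ ^ m := mul_lt_mul_of_pos_left hm h6
    linarith

/-! ## The main dynamical step -/

/-- The data of the jump. -/
lemma jump (hP1 : S_P1) (hcof : S_cof) (D : KData) (hD : D.Tri) (g₁ g₂ τ : Aff3) (h1 : g₁ ∈ D.Γ)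
    (h2 : g₂ ∈ D.Γ) (hτ : τ ∈ D.Γ) (F₁ F₂ : Fr) (hF1 : F₁.Ad g₁) (hF2 : F₂.Ad g₂)
    (hc1 : lin g₁ 2 2 < 1) (hb1 : lin g₁ 1 1 < lin g₁ 2 2) (ha1 : 1 < lin g₁ 0 0)
    (hc2 : 1 < lin g₂ 2 2) (hac2 : lin g₂ 2 2 < lin g₂ 0 0) (hb2 : lin g₂ 1 1 < 1)
    (k m : ℕ → ℕ) (hk : Tendsto k atTop atTop) (hm : Tendsto m atTop atTop) (ω : ℝ)
    (hω : Tendsto (fun n => lin g₁ 2 2 ^ (k n) * lin g₂ 2 2 ^ (m n)) atTop (𝓝 ω)) (y z x : ℝ) :
    F₂.pt 0 y z ∈ D.K ∨ F₁.pt x 0 (ω * lin τ 2 2 * z) ∈ D.K := by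
  obtain ⟨a, b, c, d, f, htr⟩ := transfer F₂ F₁ (hD τ hτ)
  set h := tr τ 2 + F₁.h - lin τ 2 2 * F₂.h with hh
  have pos1 := (hD g₁ h1).2.2.2
  have pos2 := (hD g₂ h2).2.2.2
  have posτ := (hD τ hτ).2.2.2
  set a₁ := lin g₁ 0 0
  set b₁ := lin g₁ 1 1
  set c₁ := lin g₁ 2 2
  set a₂ := lin g₂ 0 0
  set b₂ := lin g₂ 1 1
  set c₂ := lin g₂ 2 2
  have a1p : 0 < a₁ := pos1.1
  have b1p : 0 < b₁ := pos1.2.1
  have c1p : 0 < c₁ := pos1.2.2.1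
  have a2p : 0 < a₂ := pos2.1
  have b2p : 0 < b₂ := pos2.2.1
  have c2p : 0 < c₂ := pos2.2.2.1
  -- limits of powers
  have L1 : Tendsto (fun n => b₁ ^ (k n)) atTop (𝓝 0) :=
    (tendsto_pow_atTop_nhds_zero_of_lt_one b1p.le (by linarith)).comp hk
  have L2 : Tendsto (fun n => b₂ ^ (m n)) atTop (𝓝 0) :=
    (tendsto_pow_atTop_nhds_zero_of_lt_one b2p.le hb2).comp hm
  have L3 : Tendsto (fun n => c₁ ^ (k n)) atTop (𝓝 0) :=
    (tendsto_pow_atTop_nhds_zero_of_lt_one c1p.le hc1).comp hk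
  have L4 : Tendsto (fun n => (b₁ / c₁) ^ (k n)) atTop (𝓝 0) :=
    (tendsto_pow_atTop_nhds_zero_of_lt_one (div_pos b1p c1p).le ((div_lt_one c1p).2 hb1)).comp hk
  have L5 : Tendsto (fun n => (a₁⁻¹) ^ (k n)) atTop (𝓝 0) :=
    (tendsto_pow_atTop_nhds_zero_of_lt_one (inv_pos.2 a1p).le (inv_lt_one_of_one_lt₀ ha1)).comp hk
  have L6 : Tendsto (fun n => (a₂⁻¹) ^ (m n)) atTop (𝓝 0) :=
    (tendsto_pow_atTop_nhds_zero_of_lt_one (inv_pos.2 a2p).le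
      (inv_lt_one_of_one_lt₀ (by linarith))).comp hm
  have L7 : Tendsto (fun n => (c₂ / a₂) ^ (m n)) atTop (𝓝 0) :=
    (tendsto_pow_atTop_nhds_zero_of_lt_one (div_pos c2p a2p).le ((div_lt_one a2p).2 hac2)).comp hm
  -- the starting point
  let ξ : ℕ → ℝ := fun n => (lin τ 0 0)⁻¹ * ((a₁⁻¹) ^ (k n) * (a₂⁻¹) ^ (m n) * x -
    a * (b₂ ^ (m n) * (a₂⁻¹) ^ (m n)) * y - b * (c₂ / a₂) ^ (m n) * z - c * (a₂⁻¹) ^ (m n))
  have Lξ : Tendsto ξ atTop (𝓝 0) := by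
    have e1 := ((((L5.mul L6).mul_const x).sub (((L2.mul L6).const_mul a).mul_const y)).sub
      ((L7.const_mul b).mul_const z)).sub (L6.const_mul c)
    have e2 := e1.const_mul (lin τ 0 0)⁻¹
    have e3 : (lin τ 0 0)⁻¹ * (0 * 0 * x - a * (0 * 0) * y - b * 0 * z - c * 0) = 0 := by ring
    rw [e3] at e2
    exact e2
  have Lstart : Tendsto (fun n => F₂.pt (ξ n) y z) atTop (𝓝 (F₂.pt 0 y z)) :=
    F₂.tendsto_pt Lξ tendsto_const_nhds tendsto_const_nhds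
  -- the end point
  have Lcb : Tendsto (fun n => b₁ ^ (k n) * c₂ ^ (m n)) atTop (𝓝 0) := by
    have e1 := L4.mul hω
    rw [zero_mul] at e1
    refine e1.congr fun n => ?_
    rw [div_pow]
    have e4 : c₁ ^ k n ≠ 0 := (pow_pos c1p _).ne'
    field_simp
  have Ly : Tendsto (fun n => b₁ ^ (k n) * (lin τ 1 1 * (b₂ ^ (m n) * y) + d * (c₂ ^ (m n) * z) + f))
      atTop (𝓝 0) := by
    have e1 := (((L1.mul L2).const_mul (lin τ 1 1 * y)).add (Lcb.const_mul (d * z))).add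
      (L1.mul_const f)
    have e3 : lin τ 1 1 * y * (0 * 0) + d * z * 0 + 0 * f = 0 := by ring
    rw [e3] at e1
    refine e1.congr fun n => ?_
    ring
  have Lz : Tendsto (fun n => c₁ ^ (k n) * (lin τ 2 2 * (c₂ ^ (m n) * z) + h)) atTop
      (𝓝 (ω * lin τ 2 2 * z)) := by
    have e1 := (hω.mul_const (lin τ 2 2 * z)).add (L3.mul_const h)
    have e3 : ω * (lin τ 2 2 * z) + 0 * h = ω * lin τ 2 2 * z := by ring
    rw [e3] at e1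
    refine e1.congr fun n => ?_
    ring
  have himg : ∀ n, (g₁ ^ (k n) * τ * g₂ ^ (m n)) (F₂.pt (ξ n) y z) =
      F₁.pt x (b₁ ^ (k n) * (lin τ 1 1 * (b₂ ^ (m n) * y) + d * (c₂ ^ (m n) * z) + f))
        (c₁ ^ (k n) * (lin τ 2 2 * (c₂ ^ (m n) * z) + h)) := by
    intro n
    show (g₁ ^ (k n)) (τ ((g₂ ^ (m n)) (F₂.pt (ξ n) y z))) = _
    obtain ⟨q1, q2, q3⟩ := hF2.pow (m n) (F₂.pt (ξ n) y z)
    obtain ⟨r1, r2, r3⟩ := htr ((g₂ ^ (m n)) (F₂.pt (ξ n) y z))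
    obtain ⟨s1, s2, s3⟩ := hF1.pow (k n) (τ ((g₂ ^ (m n)) (F₂.pt (ξ n) y z)))
    rw [Fr.X_pt] at q1
    rw [Fr.Y_pt] at q2
    rw [Fr.Z_pt] at q3
    apply Fr.eq_pt
    · rw [s1, r1, q1, q2, q3]
      show a₁ ^ k n * (lin τ 0 0 * (a₂ ^ m n * ξ n) + a * (b₂ ^ m n * y) + b * (c₂ ^ m n * z) + c) = x
      have e1 : a₁ ^ k n * (a₁⁻¹) ^ k n = 1 := by
        rw [← mul_pow, mul_inv_cancel₀ a1p.ne', one_pow]
      have e2 : a₂ ^ m n * (a₂⁻¹) ^ m n = 1 := by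
        rw [← mul_pow, mul_inv_cancel₀ a2p.ne', one_pow]
      have e3 : a₂ ^ m n * (c₂ / a₂) ^ m n = c₂ ^ m n := by
        rw [← mul_pow, mul_div_cancel₀ _ a2p.ne']
      have e4 : lin τ 0 0 * (lin τ 0 0)⁻¹ = 1 := mul_inv_cancel₀ posτ.1.ne'
      have e5 : lin τ 0 0 * (a₂ ^ m n * ξ n) =
          (a₁⁻¹) ^ (k n) * x - a * b₂ ^ (m n) * y - b * c₂ ^ (m n) * z - c := by
        show lin τ 0 0 * (a₂ ^ m n * ((lin τ 0 0)⁻¹ * ((a₁⁻¹) ^ (k n) * (a₂⁻¹) ^ (m n) * x -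
          a * (b₂ ^ (m n) * (a₂⁻¹) ^ (m n)) * y - b * (c₂ / a₂) ^ (m n) * z -
          c * (a₂⁻¹) ^ (m n)))) = _
        calc _ = (lin τ 0 0 * (lin τ 0 0)⁻¹) * ((a₂ ^ m n * (a₂⁻¹) ^ (m n)) * (a₁⁻¹) ^ (k n) * x -
              a * (b₂ ^ (m n) * (a₂ ^ m n * (a₂⁻¹) ^ (m n))) * y -
              b * (a₂ ^ m n * (c₂ / a₂) ^ (m n)) * z - c * (a₂ ^ m n * (a₂⁻¹) ^ (m n))) := by ring
          _ = _ := by
            rw [e2, e3, e4]
            ring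
      rw [e5]
      calc _ = (a₁ ^ k n * (a₁⁻¹) ^ k n) * x := by ring
        _ = x := by rw [e1, one_mul]
    · rw [s2, r2, q2, q3]
    · rw [s3, r3, q3]
  -- the sequence leaves every finite set
  have hΓ : ∀ n, g₁ ^ (k n) * τ * g₂ ^ (m n) ∈ D.Γ := fun n =>
    D.Γ.mul_mem (D.Γ.mul_mem (D.Γ.pow_mem h1 _) hτ) (D.Γ.pow_mem h2 _)
  have hlin : ∀ n, lin (g₁ ^ (k n) * τ * g₂ ^ (m n)) 0 0 = a₁ ^ (k n) * lin τ 0 0 * a₂ ^ (m n) := by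
    intro n
    rw [diag_mul (hD _ (D.Γ.mul_mem (D.Γ.pow_mem h1 _) hτ)) (hD _ (D.Γ.pow_mem h2 _)),
      diag_mul (hD _ (D.Γ.pow_mem h1 _)) (hD _ hτ), lin_pow_diag D hD h1, lin_pow_diag D hD h2]
  have hco : Tendsto (fun n => g₁ ^ (k n) * τ * g₂ ^ (m n)) atTop cofinite := by
    refine hcof.1 _ ⟨0, 0, ?_⟩
    have e1 : Tendsto (fun n => a₂ ^ (m n)) atTop atTop :=
      (tendsto_pow_atTop_atTop_of_one_lt (by linarith)).comp hm
    have e2 : Tendsto (fun n => lin τ 0 0 * a₂ ^ (m n)) atTop atTop := e1.const_mul_atTop posτ.1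
    refine tendsto_atTop_mono (fun n => ?_) e2
    rw [hlin, abs_of_pos (mul_pos (mul_pos (pow_pos a1p _) posτ.1) (pow_pos a2p _)), mul_assoc]
    refine le_mul_of_one_le_left (mul_pos posτ.1 (pow_pos a2p _)).le (one_le_pow₀ ha1.le)
  refine hP1 D _ _ _ _ hΓ hco Lstart ?_
  refine (F₁.tendsto_pt tendsto_const_nhds Ly Lz).congr fun n => ?_
  exact (himg n).symm

/-- A plane in `K` is impossible. -/
lemma no_plane (hF2 : S_F2) (D : KData) (F : Fr) (h : ∀ x z : ℝ, F.pt x 0 z ∈ D.K) : False := by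
  have ha : (![0, 1, F.d] : E) ≠ 0 := by
    intro h0
    have h1 := congrFun h0 1
    simp at h1
  obtain ⟨x, hx, hx2⟩ := hF2 D ![0, 1, F.d] (-F.f) ha
  have h2 : F.Y x = 0 := by
    unfold Fr.Y
    have h3 : (0 : ℝ) * x 0 + 1 * x 1 + F.d * x 2 = -F.f := hx2
    linarith
  have h4 : x = F.pt (F.X x) 0 (F.Z x) := F.eq_pt rfl h2 rfl
  have h5 := h (F.X x) (F.Z x)
  rw [← h4] at h5
  exact h5 hx

/-- The plane `{X = 0}` is not contained in `K`. -/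
lemma exists_O (hF2 : S_F2) (D : KData) (F : Fr) : ∃ y z : ℝ, F.pt 0 y z ∈ D.Ω := by
  have ha : (![1, F.a, F.b] : E) ≠ 0 := by
    intro h0
    have h1 := congrFun h0 0
    simp at h1
  obtain ⟨x, hx, hx2⟩ := hF2 D ![1, F.a, F.b] (-F.c) ha
  have h2 : F.X x = 0 := by
    unfold Fr.X
    have h3 : (1 : ℝ) * x 0 + F.a * x 1 + F.b * x 2 = -F.c := hx2
    linarith
  have h4 : x = F.pt 0 (F.Y x) (F.Z x) := F.eq_pt h2 rfl rfl
  refine ⟨F.Y x, F.Z x, ?_⟩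
  rw [← h4]
  exact hx

/-- A half plane of `{Y₁ = 0}` is not contained in `K`. -/
lemma no_half (hF2 : S_F2) (hK : S_K) (hden : S_densN) (D : KData) (hD : D.Tri) (g₂ : Aff3)
    (h2 : g₂ ∈ D.Γ) (F₁ F₂ : Fr) (hFA : F₂.Ad g₂) (hc2 : 1 < lin g₂ 2 2) (hb2 : lin g₂ 1 1 < 1)
    (ε : ℝ) (hε : ε ≠ 0) (hH : ∀ x z : ℝ, 0 < ε * z → F₁.pt x 0 z ∈ D.K) : False := by
  obtain ⟨τ, hτ, hτu, hτh⟩ : ∃ τ ∈ D.Γ, (∀ i, lin τ i i = 1) ∧ 0 < ε * (tr τ 2 + F₁.h - F₂.h) := by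
    rcases lt_or_gt_of_ne hε with h | h
    · obtain ⟨τ, hτ, h3, -, h4⟩ := hden D hD ⟨g₂, h2, hc2.ne'⟩ (F₂.h - F₁.h - 1) (F₂.h - F₁.h) (by linarith)
      exact ⟨τ, hτ, h3, mul_pos_of_neg_of_neg h (by linarith)⟩
    · obtain ⟨τ, hτ, h3, h4, -⟩ := hden D hD ⟨g₂, h2, hc2.ne'⟩ (F₂.h - F₁.h) (F₂.h - F₁.h + 1) (by linarith)
      exact ⟨τ, hτ, h3, mul_pos h (by linarith)⟩
  obtain ⟨a, b, c, d, f, htr⟩ := transfer F₂ F₁ (hD τ hτ)
  rw [hτu 0, hτu 1, hτu 2] at htr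
  obtain ⟨a2p, b2p, c2p, -⟩ := (hD g₂ h2).2.2.2
  refine no_plane hF2 D F₂ fun x z => ?_
  set a₂ := lin g₂ 0 0
  set b₂ := lin g₂ 1 1
  set c₂ := lin g₂ 2 2
  have L1 : Tendsto (fun n : ℕ => b₂ ^ n) atTop (𝓝 0) :=
    tendsto_pow_atTop_nhds_zero_of_lt_one b2p.le hb2
  have L2 : Tendsto (fun n : ℕ => (c₂⁻¹) ^ n) atTop (𝓝 0) :=
    tendsto_pow_atTop_nhds_zero_of_lt_one (inv_pos.2 c2p).le (inv_lt_one_of_one_lt₀ hc2)
  -- the points of the half plane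
  let q : ℕ → E := fun n => F₂.pt ((a₂⁻¹) ^ n * x) (-(d * ((c₂⁻¹) ^ n * z) + f)) ((c₂⁻¹) ^ n * z)
  have hq : ∀ᶠ n in atTop, q n ∈ D.K := by
    have L3 : Tendsto (fun n : ℕ => ε * ((c₂⁻¹) ^ n * z + (tr τ 2 + F₁.h - 1 * F₂.h))) atTop
        (𝓝 (ε * (0 * z + (tr τ 2 + F₁.h - 1 * F₂.h)))) := ((L2.mul_const z).add_const _).const_mul ε
    have h3 : 0 < ε * (0 * z + (tr τ 2 + F₁.h - 1 * F₂.h)) := by
      rw [zero_mul, zero_add, one_mul]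
      exact hτh
    filter_upwards [L3.eventually (lt_mem_nhds h3)] with n hn
    have h4 := htr (q n)
    rw [Fr.X_pt, Fr.Y_pt, Fr.Z_pt] at h4
    obtain ⟨-, h5, h6⟩ := h4
    have h7 : F₁.Y (τ (q n)) = 0 := by
      rw [h5]
      ring
    have h8 : τ (q n) = F₁.pt (F₁.X (τ (q n))) 0 (F₁.Z (τ (q n))) := F₁.eq_pt rfl h7 rfl
    have h9 : τ (q n) ∈ D.K := by
      rw [h8]
      refine hH _ _ ?_
      rw [h6, one_mul]
      exact hn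
    exact ((hK D).2 τ hτ (q n)).1 h9
  have himg : ∀ n, (g₂ ^ n) (q n) = F₂.pt x (b₂ ^ n * (-(d * ((c₂⁻¹) ^ n * z) + f))) z := by
    intro n
    obtain ⟨s1, s2, s3⟩ := hFA.pow n (q n)
    rw [Fr.X_pt] at s1
    rw [Fr.Y_pt] at s2
    rw [Fr.Z_pt] at s3
    refine F₂.eq_pt ?_ s2 ?_
    · rw [s1]
      show a₂ ^ n * ((a₂⁻¹) ^ n * x) = x
      rw [← mul_assoc, ← mul_pow, mul_inv_cancel₀ a2p.ne', one_pow, one_mul]
    · rw [s3]
      show c₂ ^ n * ((c₂⁻¹) ^ n * z) = z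
      rw [← mul_assoc, ← mul_pow, mul_inv_cancel₀ c2p.ne', one_pow, one_mul]
  have L4 : Tendsto (fun n => (g₂ ^ n) (q n)) atTop (𝓝 (F₂.pt x 0 z)) := by
    have e1 : Tendsto (fun n : ℕ => b₂ ^ n * (-(d * ((c₂⁻¹) ^ n * z) + f))) atTop
        (𝓝 (0 * (-(d * (0 * z) + f)))) := L1.mul (((L2.mul_const z).const_mul d).add_const f).neg
    rw [zero_mul] at e1
    exact (F₂.tendsto_pt tendsto_const_nhds e1 tendsto_const_nhds).congr fun n => (himg n).symm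
  refine (hK D).1.mem_of_tendsto L4 (hq.mono fun n hn => ?_)
  exact ((hK D).2 (g₂ ^ n) (D.Γ.pow_mem h2 n) (q n)).2 hn

theorem T3b (hden : S_densN) (hP1 : S_P1) (hF2 : S_F2) (hK : S_K) (hcof : S_cof) : S_T3b := by
  intro D g h hD hinj hg hh hne
  let G : D.Γ := ⟨g, hg⟩
  let H : D.Γ := ⟨h, hh⟩
  have hdet : lg D hD 0 G * lg D hD 2 H - lg D hD 2 G * lg D hD 0 H ≠ 0 := sub_ne_zero.2 hne
  obtain ⟨γ₁, hc1, hb1⟩ := exists_g1 D hD G H hdet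
  obtain ⟨γ₂, hc2, hac2⟩ := exists_g2 D hD G H hdet
  have hs1 := lg_sum D hD γ₁
  have hs2 := lg_sum D hD γ₂
  have hexp : ∀ (i : Fin 3) (γ : D.Γ), lin γ.1 i i = Real.exp (lg D hD i γ) := fun i γ =>
    (Real.exp_log (chi_pos D hD i γ)).symm
  -- inequalities between the diagonal entries
  have A1 : 1 < lin γ₁.1 0 0 := by
    rw [hexp, Real.one_lt_exp_iff]
    linarith
  have C1 : lin γ₁.1 2 2 < 1 := by
    rw [hexp, Real.exp_lt_one_iff]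
    exact hc1
  have B1 : lin γ₁.1 1 1 < lin γ₁.1 2 2 := by
    rw [hexp, hexp, Real.exp_lt_exp]
    exact hb1
  have C2 : 1 < lin γ₂.1 2 2 := by
    rw [hexp, Real.one_lt_exp_iff]
    exact hc2
  have A2 : lin γ₂.1 2 2 < lin γ₂.1 0 0 := by
    rw [hexp, hexp, Real.exp_lt_exp]
    exact hac2
  have B2 : lin γ₂.1 1 1 < 1 := by
    rw [hexp, Real.exp_lt_one_iff]
    linarith
  obtain ⟨F₁, hF₁⟩ := exists_ad (hD γ₁.1 γ₁.2) A1.ne' (by linarith) C1.ne (by linarith) (by linarith)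
    B1.ne
  obtain ⟨F₂, hF₂⟩ := exists_ad (hD γ₂.1 γ₂.2) (by linarith) B2.ne C2.ne' (by linarith) (by linarith)
    (by linarith)
  -- the exponents
  obtain ⟨k, hk1, hk2⟩ := seqk (lin γ₁.1 2 2) (lin γ₂.1 2 2) (hD γ₁.1 γ₁.2).2.2.2.2.2.1 C1 C2
  obtain ⟨ω, hω, φ, hφ, hφω⟩ := isCompact_Icc.tendsto_subseq hk1
  have hωpos : 0 < ω := lt_of_lt_of_le one_pos hω.1
  have hjump : ∀ (τ : D.Γ) (y z x : ℝ), F₂.pt 0 y z ∈ D.K ∨ F₁.pt x 0 (ω * lin τ.1 2 2 * z) ∈ D.K :=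
    fun τ y z x => jump hP1 hcof D hD γ₁.1 γ₂.1 τ.1 γ₁.2 γ₂.2 τ.2 F₁ F₂ hF₁ hF₂ C1 B1 A1 C2 A2 B2
      (fun n => k (φ n)) φ (hk2.comp hφ.tendsto_atTop) hφ.tendsto_atTop ω hφω y z x
  -- products of values in `O` and `O'` are nonpositive
  have hOO : ∀ y z x z' : ℝ, F₂.pt 0 y z ∈ D.Ω → F₁.pt x 0 z' ∈ D.Ω → z * z' ≤ 0 := by
    intro y z x z' h1 h2
    by_contra hcon
    rw [not_le] at hcon
    have hz : z ≠ 0 := by
      rintro rfl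
      rw [zero_mul] at hcon
      exact lt_irrefl _ hcon
    have hσ : 0 < z' / z / ω := by
      refine div_pos ?_ hωpos
      have : z' / z = z * z' / z ^ 2 := by field_simp
      rw [this]
      exact div_pos hcon (by positivity)
    -- an open set of parameters
    have hcont : Continuous fun t : ℝ => F₁.pt x 0 (ω * Real.exp t * z) :=
      F₁.continuous_pt continuous_const continuous_const
        ((continuous_const.mul Real.continuous_exp).mul continuous_const)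
    have hopen : IsOpen ((fun t : ℝ => F₁.pt x 0 (ω * Real.exp t * z)) ⁻¹' D.Ω) :=
      D.isOpen.preimage hcont
    have hmem : Real.log (z' / z / ω) ∈ (fun t : ℝ => F₁.pt x 0 (ω * Real.exp t * z)) ⁻¹' D.Ω := by
      show F₁.pt x 0 (ω * Real.exp (Real.log (z' / z / ω)) * z) ∈ D.Ω
      rw [Real.exp_log hσ]
      have : ω * (z' / z / ω) * z = z' := by field_simp
      rw [this]
      exact h2
    obtain ⟨δ, hδ, hball⟩ := Metric.isOpen_iff.1 hopen _ hmem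
    obtain ⟨τ, hτ1, hτ2⟩ := dense_lg D hD G H hinj hdet (Real.log (z' / z / ω) - δ)
      (Real.log (z' / z / ω) + δ) (by linarith)
    have h3 : lg D hD 2 τ ∈ (fun t : ℝ => F₁.pt x 0 (ω * Real.exp t * z)) ⁻¹' D.Ω := by
      apply hball
      rw [Real.ball_eq_Ioo]
      exact ⟨hτ1, hτ2⟩
    have h4 : F₁.pt x 0 (ω * lin τ.1 2 2 * z) ∈ D.Ω := by
      rw [hexp]
      exact h3
    rcases hjump τ y z x with h5 | h5
    · exact h5 h1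
    · exact h5 h4
  -- a nonzero point of `O`
  obtain ⟨y₀, z₀, h0, hz0⟩ : ∃ y z : ℝ, F₂.pt 0 y z ∈ D.Ω ∧ z ≠ 0 := by
    obtain ⟨y, z, h1⟩ := exists_O hF2 D F₂
    have hopen : IsOpen ((fun t : ℝ => F₂.pt 0 y t) ⁻¹' D.Ω) :=
      D.isOpen.preimage (F₂.continuous_pt continuous_const continuous_const continuous_id)
    obtain ⟨δ, hδ, hball⟩ := Metric.isOpen_iff.1 hopen z h1
    by_cases hz : z = 0
    · refine ⟨y, δ / 2, ?_, by positivity⟩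
      have : δ / 2 ∈ (fun t : ℝ => F₂.pt 0 y t) ⁻¹' D.Ω := by
        apply hball
        rw [Real.ball_eq_Ioo, hz]
        constructor <;> linarith
      exact this
    · exact ⟨y, z, h1, hz⟩
  refine no_half hF2 hK hden D hD γ₂.1 γ₂.2 F₁ F₂ hF₂ C2 B2 z₀ hz0 fun x z hz => ?_
  by_contra hcon
  have h1 : F₁.pt x 0 z ∈ D.Ω := not_not.1 hcon
  exact absurd (hOO y₀ z₀ x z h0 h1) (not_le.2 hz)

end Pool.Agent.Helper2.K3.T3b
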