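import Pool.Agent.Helper77.K3.Defs
import Pool.Agent.Helper4.MKT.Ruled

/-!
# Kleinian affine structures in dimension three: the facts from the general theory

`S_F1`, `S_F2`, `S_F3`, `S_NS` from the landed theorems on compact affine manifolds with parallel
volume, applied to `Y = Ω` and the inclusion as developing map.
-/

set_option autoImplicit false

open Set Filter Topology MeasureTheory

namespace Pool.Agent.Helper2.K3.baseB

open Pool.Agent.Helper77.K3 Pool.Agent.Helper2.MK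

variable (D : KData)

instance act : MulAction D.Γ D.Ω where
  smul γ x := ⟨(γ : Aff3) x.1, D.inv γ.1 γ.2 x.1 x.2⟩
  one_smul _ := Subtype.ext rfl
  mul_smul _ _ _ := Subtype.ext rfl

theorem smul_val (γ : D.Γ) (x : D.Ω) : ((γ • x : D.Ω) : E) = (γ : Aff3) x.1 := rfl

theorem aff_cont (γ : Aff3) : Continuous γ := γ.toAffineMap.continuous_of_finiteDimensional

instance actCont : ContinuousConstSMul D.Γ D.Ω where
  continuous_const_smul γ :=
    ((aff_cont γ.1).comp continuous_subtype_val).subtype_mk fun x => D.inv γ.1 γ.2 x.1 x.2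

/-- The linear holonomy. -/
def hol : D.Γ →* Aff3 := D.Γ.subtype

theorem nonempty_Ω : Nonempty D.Ω := D.conn.nonempty.to_subtype

theorem isPD : PD D.Γ D.Ω := by
  intro K hK
  have h1 := D.proper (Subtype.val '' K) (by rintro _ ⟨x, -, rfl⟩; exact x.2)
    (hK.image continuous_subtype_val)
  refine Set.Finite.of_finite_image (f := Subtype.val) (h1.subset ?_)
    Subtype.val_injective.injOn
  rintro _ ⟨γ, ⟨z, ⟨y, hy, hyz⟩, hz⟩, rfl⟩
  exact ⟨γ.2, z.1, ⟨y.1, ⟨y, hy, rfl⟩, congrArg Subtype.val hyz⟩, ⟨z, hz, rfl⟩⟩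

theorem isFree (γ : D.Γ) (y : D.Ω) (h : γ • y = y) : γ = 1 :=
  Subtype.ext (D.free γ.1 γ.2 y.1 y.2 (congrArg Subtype.val h))

theorem devLoc : IsLocalHomeomorph (Subtype.val : D.Ω → E) :=
  D.isOpen.isOpenEmbedding_subtypeVal.isLocalHomeomorph

theorem devEq (γ : D.Γ) (y : D.Ω) : ((γ • y : D.Ω) : E) = hol D γ y.1 := rfl

theorem isCoc : ∃ K : Set D.Ω, IsCompact K ∧ ∀ y, ∃ g : D.Γ, g • y ∈ K := by
  obtain ⟨F, hF, hFc, hcov⟩ := D.cocompact
  refine ⟨Subtype.val ⁻¹' F, ?_, ?_⟩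
  · rw [Subtype.isCompact_iff, Subtype.image_preimage_coe, inter_eq_self_of_subset_right hF]
    exact hFc
  · intro y
    obtain ⟨γ, hγ, h⟩ := hcov y.1 y.2
    exact ⟨⟨γ, hγ⟩, h⟩

theorem isDet (γ : D.Γ) : |LinearMap.det ((hol D γ).linear : E →ₗ[ℝ] E)| = 1 := D.det γ.1 γ.2

/-- `S_F1` -/
theorem F1 : S_F1 := by
  intro D C hC hne hinv
  have := nonempty_Ω D
  obtain ⟨c, hc⟩ := hne
  exact no_invariant_star (h := hol D) (isPD D) (isFree D) (devLoc D) (devEq D) (isDet D) (isCoc D)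
    (fun γ x hx => hinv γ.1 γ.2 x hx) hc (hC hc)

/-- `S_F3` -/
theorem F3 : S_F3 := by
  intro D a ha
  have h1 : range (Subtype.val : D.Ω → E) = D.Ω := Subtype.range_coe
  have h2 := Pool.Agent.Helper4.MKT.line_in_frontier (h := hol D) (isPD D) (devLoc D) (devEq D)
    (isDet D) (isCoc D) Subtype.val_injective (a := a) (by rw [h1]; exact ha)
  rw [h1] at h2
  exact h2

/-- `S_F2` -/
theorem F2 : S_F2 := by
  intro D a c ha
  by_contra hcon
  push Not at hcon
  set f : E → ℝ := fun x => a 0 * x 0 + a 1 * x 1 + a 2 * x 2 with hf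
  have hfc : Continuous f := by fun_prop
  have hfl : IsLinearMap ℝ f := by
    constructor
    · intro x y
      simp only [hf, Pi.add_apply]
      ring
    · intro t x
      simp only [hf, Pi.smul_apply, smul_eq_mul]
      ring
  have hconn : IsPreconnected (f '' D.Ω) := D.conn.isPreconnected.image f hfc.continuousOn
  have hside : (∀ y ∈ D.Ω, f y < c) ∨ (∀ y ∈ D.Ω, c < f y) := by
    by_contra h2
    push Not at h2
    obtain ⟨⟨y1, hy1, h1⟩, ⟨y2, hy2, h2⟩⟩ := h2
    obtain ⟨y, hy, hyc⟩ := hconn.Icc_subset ⟨y2, hy2, rfl⟩ ⟨y1, hy1, rfl⟩ ⟨h2, h1⟩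
    exact hcon y hy hyc
  have hinv : ∀ γ ∈ D.Γ, ∀ x ∈ convexHull ℝ D.Ω, γ x ∈ convexHull ℝ D.Ω := by
    intro γ hγ x hx
    have h1 : (γ : E →ᵃ[ℝ] E) '' (convexHull ℝ D.Ω) = convexHull ℝ ((γ : E →ᵃ[ℝ] E) '' D.Ω) :=
      AffineMap.image_convexHull _ _
    have h2 : (γ : E →ᵃ[ℝ] E) '' D.Ω ⊆ D.Ω := by
      rintro _ ⟨y, hy, rfl⟩
      exact D.inv γ hγ y hy
    have h3 : γ x ∈ (γ : E →ᵃ[ℝ] E) '' (convexHull ℝ D.Ω) := ⟨x, hx, rfl⟩
    rw [h1] at h3
    exact convexHull_mono h2 h3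
  have huniv : convexHull ℝ D.Ω = univ :=
    F1 D _ (convex_convexHull ℝ _) (D.conn.nonempty.convexHull) hinv
  obtain ⟨i, hi⟩ : ∃ i, a i ≠ 0 := by
    by_contra h0
    push Not at h0
    exact ha (funext h0)
  have hval : ∃ x : E, f x = c := by
    have h1 : f a = a 0 ^ 2 + a 1 ^ 2 + a 2 ^ 2 := by simp only [hf]; ring
    have h2 : f a ≠ 0 := by
      rw [h1]
      have : 0 < a i ^ 2 := by positivity
      fin_cases i
      · have : 0 < a 0 ^ 2 := this
        positivity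
      · have : 0 < a 1 ^ 2 := this
        positivity
      · have : 0 < a 2 ^ 2 := this
        positivity
    refine ⟨(c / f a) • a, ?_⟩
    rw [hfl.map_smul, smul_eq_mul, div_mul_cancel₀ _ h2]
  obtain ⟨x, hx⟩ := hval
  have hxm : x ∈ convexHull ℝ D.Ω := by rw [huniv]; exact mem_univ x
  rcases hside with hs | hs
  · have hsub : convexHull ℝ D.Ω ⊆ {x | f x < c} :=
      convexHull_min hs ((convex_Iio c).is_linear_preimage hfl)
    exact absurd (hsub hxm) (by simp [hx])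
  · have hsub : convexHull ℝ D.Ω ⊆ {x | c < f x} :=
      convexHull_min hs ((convex_Ioi c).is_linear_preimage hfl)
    exact absurd (hsub hxm) (by simp [hx])

/-- `S_NS` -/
theorem NS : S_NS := by
  intro D Φ hΦ heq hsing
  have := nonempty_Ω D
  set F : D.Ω → E := fun y => Φ y.1 with hF
  have hFl : DLip (Subtype.val : D.Ω → E) F := by
    intro y
    have h1 : ContDiffAt ℝ 1 Φ y.1 := hΦ.contDiffAt (D.isOpen.mem_nhds y.2)
    obtain ⟨K, t, ht, hK⟩ := h1.exists_lipschitzOnWith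
    refine ⟨Subtype.val ⁻¹' t, continuous_subtype_val.continuousAt ht, K, K.2, ?_⟩
    intro a ha b hb
    have := hK.norm_sub_le ha hb
    exact this
  refine no_singular (μ := (volume : Measure E)) (h := hol D) (isPD D) (isFree D) (devLoc D)
    (devEq D) (isDet D) (isCoc D) hFl (fun γ y => heq γ.1 γ.2 y.1 y.2) ?_
  intro e he
  refine (ae_restrict_iff' e.open_target.measurableSet).2 (Eventually.of_forall ?_)
  intro x hx
  have hev : (F ∘ e.symm) =ᶠ[𝓝 x] Φ := by
    filter_upwards [e.open_target.mem_nhds hx] with z hz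
    have h1 : e (e.symm z) = z := e.right_inv hz
    rw [he] at h1
    simp only [hF, Function.comp_apply]
    rw [h1]
  rw [hev.fderiv_eq]
  have h1 : e (e.symm x) = x := e.right_inv hx
  rw [he] at h1
  exact hsing x (h1 ▸ (e.symm x).2)

end Pool.Agent.Helper2.K3.baseB
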